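import Mathlib

/-!
# A benzenoid hexagon with ring bond order 3

A benzenoid system with 9 hexagons and 18 Kekulé structures, without fjords (it is an induced
subgraph of the hexagonal lattice), one of whose hexagons has ring bond order exactly 3: that
hexagon contains three double bonds in every Kekulé structure.

The proof that every perfect matching contains three edges of the hexagon uses a weight function
on the vertices (a dual certificate): its total is 3, and the weights of the two ends of an edge of
the benzenoid add up to at most 1 for an edge of the hexagon and to at most 0 for any other edge.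
-/

set_option autoImplicit false

open Finset

namespace Pool.Agent.Results.MP_64a46a_co.OrderThree

/-- Vertices of the hexagonal lattice. -/
abbrev V : Type := ℤ × ℤ × Bool

/-- The regular hexagonal lattice (honeycomb): `(q, r, false)` is adjacent to `(q, r, true)`,
`(q - 1, r, true)` and `(q, r - 1, true)`, and there are no other edges. -/
def lattice : SimpleGraph V where
  Adj u v :=
    (u.2.2 = false ∧ v.2.2 = true ∧
      ((v.1 = u.1 ∧ v.2.1 = u.2.1) ∨ (v.1 = u.1 - 1 ∧ v.2.1 = u.2.1) ∨
        (v.1 = u.1 ∧ v.2.1 = u.2.1 - 1))) ∨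
    (v.2.2 = false ∧ u.2.2 = true ∧
      ((u.1 = v.1 ∧ u.2.1 = v.2.1) ∨ (u.1 = v.1 - 1 ∧ u.2.1 = v.2.1) ∨
        (u.1 = v.1 ∧ u.2.1 = v.2.1 - 1)))
  symm := ⟨fun _ _ h => h.symm⟩
  loopless := ⟨fun u h => by
    rcases h with ⟨h1, h2, _⟩ | ⟨h1, h2, _⟩
    · rw [h1] at h2
      exact Bool.noConfusion h2
    · rw [h1] at h2
      exact Bool.noConfusion h2⟩

instance : DecidableRel lattice.Adj := fun u v => by
  unfold lattice
  infer_instance

/-- The edges of a cyclic list of vertices: its consecutive pairs, and the last vertex with the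
first. -/
def cycEdges (l : List V) : Finset (Sym2 V) :=
  (List.zipWith (fun a b => s(a, b)) l (l.rotate 1)).toFinset

/-- The list `l` runs around a cycle of the hexagonal lattice. -/
def IsCycle (l : List V) : Prop :=
  3 ≤ l.length ∧ l.Nodup ∧ ∀ e ∈ cycEdges l, e ∈ lattice.edgeSet

/-- The hexagon (hexagonal face of the lattice) number `c`: its six vertices in cyclic order. -/
def hexagon (c : ℤ × ℤ) : List V :=
  [(c.1, c.2, false), (c.1 - 1, c.2, true), (c.1 - 1, c.2, false), (c.1 - 1, c.2 - 1, true),
    (c.1, c.2 - 1, false), (c.1, c.2 - 1, true)]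

/-- The six edges of a hexagon. -/
def hexEdges (c : ℤ × ℤ) : Finset (Sym2 V) := cycEdges (hexagon c)

/-- `C` is a cycle of the hexagonal lattice and `S` is the finite set of the hexagons inside `C`:
an edge of the lattice belongs to `C` exactly when it lies on exactly one hexagon from `S`. -/
def IsBenzenoid (C : List V) (S : Finset (ℤ × ℤ)) : Prop :=
  IsCycle C ∧
    ∀ e ∈ lattice.edgeSet, (e ∈ cycEdges C ↔ (S.filter fun h => e ∈ hexEdges h).card = 1)

/-- The vertices of the benzenoid graph with set of hexagons `S`. -/
def verts (S : Finset (ℤ × ℤ)) : Finset V := S.biUnion fun h => (hexagon h).toFinset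

/-- The edges of the benzenoid graph with set of hexagons `S`. -/
def edges (S : Finset (ℤ × ℤ)) : Finset (Sym2 V) := S.biUnion hexEdges

/-- The Kekulé structures (perfect matchings) of the benzenoid graph: the sets of edges of the
graph that contain exactly one edge at every vertex of the graph. -/
def kekule (S : Finset (ℤ × ℤ)) : Finset (Finset (Sym2 V)) :=
  (edges S).powerset.filter fun M => ∀ v ∈ verts S, (M.filter fun e => v ∈ e).card = 1

/-- The Pauling bond order of the edge `e`. -/
def bondOrder (S : Finset (ℤ × ℤ)) (e : Sym2 V) : ℚ :=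
  (((kekule S).filter fun M => e ∈ M).card : ℚ) / ((kekule S).card : ℚ)

/-- The ring bond order of the hexagon `h`. -/
def RBO (S : Finset (ℤ × ℤ)) (h : ℤ × ℤ) : ℚ := ∑ e ∈ hexEdges h, bondOrder S e

/-! ### The example -/

/-- the boundary cycle, of length 34 -/
def bdry : List V :=
  [(-1, -1, true), (-1, 0, false), (-1, 0, true), (0, 0, false), (0, -1, true),
   (1, -1, false), (1, -1, true), (2, -1, false), (2, -1, true), (3, -1, false),
   (3, -1, true), (4, -1, false), (4, -2, true), (4, -2, false), (4, -3, true),
   (4, -3, false), (3, -3, true), (3, -2, false), (2, -2, true), (2, -2, false),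
   (1, -2, true), (1, -2, false), (1, -3, true), (2, -3, false), (2, -4, true),
   (2, -4, false), (1, -4, true), (1, -4, false), (0, -4, true), (0, -3, false),
   (0, -3, true), (0, -2, false), (0, -2, true), (0, -1, false)]

/-- the nine hexagons -/
def cells : Finset (ℤ × ℤ) :=
  {(0, 0), (1, -3), (1, -2), (1, -1), (2, -3), (2, -1), (3, -1), (4, -2), (4, -1)}

/-- one perfect matching -/
def pm : Finset (Sym2 V) :=
  {s((-1, 0, false), (-1, 0, true)), s((0, -3, false), (0, -3, true)),
   s((0, -2, false), (0, -2, true)), s((0, -1, false), (-1, -1, true)),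
   s((0, 0, false), (0, -1, true)), s((1, -4, false), (0, -4, true)),
   s((1, -3, false), (1, -4, true)), s((1, -2, false), (1, -2, true)),
   s((1, -1, false), (1, -1, true)), s((2, -4, false), (2, -4, true)),
   s((2, -3, false), (1, -3, true)), s((2, -2, false), (2, -2, true)),
   s((2, -1, false), (2, -1, true)), s((3, -2, false), (3, -3, true)),
   s((3, -1, false), (3, -2, true)), s((4, -3, false), (4, -3, true)),
   s((4, -2, false), (4, -2, true)), s((4, -1, false), (3, -1, true))}

/-- the vertices of weight 1 -/
def plus : Finset V :=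
  {(0, -3, false), (1, -3, false), (0, -1, false), (0, -2, false), (1, -4, false),
   (2, -4, false), (0, 0, false), (-1, 0, false), (2, -3, false)}

/-- the vertices of weight -1 -/
def minus : Finset V :=
  {(0, -4, true), (1, -4, true), (0, -2, true), (2, -4, true), (0, -3, true),
   (1, -3, true)}

/-- the dual certificate -/
def wt (v : V) : ℤ := if v ∈ plus then 1 else if v ∈ minus then -1 else 0

/-- the weight of the three vertices `(q, r, false)` of the hexagon `(0, 0)` -/
def top (v : V) : ℤ :=
  if v ∈ ({(0, 0, false), (-1, 0, false), (0, -1, false)} : Finset V) then 1 else 0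

theorem cycle_ok : IsCycle bdry := by
  unfold IsCycle
  refine ⟨by decide, by decide +kernel, ?_⟩
  decide +kernel

theorem faces_ok : ∀ e ∈ edges cells,
    (e ∈ cycEdges bdry ↔ (cells.filter fun h => e ∈ hexEdges h).card = 1) := by
  decide +kernel

theorem bdry_sub : ∀ e ∈ cycEdges bdry, e ∈ edges cells := by
  decide +kernel

theorem benz : IsBenzenoid bdry cells := by
  refine ⟨cycle_ok, fun e _ => ?_⟩
  by_cases he : e ∈ edges cells
  · exact faces_ok e he
  · constructor
    · intro h
      exact absurd (bdry_sub e h) he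
    · intro h
      exfalso
      apply he
      have h1 : (cells.filter fun h => e ∈ hexEdges h).Nonempty := by
        rw [← Finset.card_pos, h]
        exact Nat.one_pos
      obtain ⟨c, hc⟩ := h1
      rw [Finset.mem_filter] at hc
      exact Finset.mem_biUnion.2 ⟨c, hc.1, hc.2⟩

theorem pm_ok : pm ∈ kekule cells := by
  unfold kekule
  rw [Finset.mem_filter, Finset.mem_powerset]
  constructor
  · decide +kernel
  · decide +kernel

theorem induced_ok : ∀ u ∈ verts cells, ∀ v ∈ verts cells, lattice.Adj u v →
    s(u, v) ∈ edges cells := by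
  decide +kernel

theorem wt_edge : ∀ e ∈ edges cells,
    ∑ v ∈ (verts cells).filter (fun v => v ∈ e), wt v ≤ if e ∈ hexEdges (0, 0) then 1 else 0 := by
  decide +kernel

theorem top_edge : ∀ e ∈ edges cells,
    (if e ∈ hexEdges (0, 0) then 1 else 0) ≤
      ∑ v ∈ (verts cells).filter (fun v => v ∈ e), top v := by
  decide +kernel

theorem wt_sum : ∑ v ∈ verts cells, wt v = 3 := by
  decide +kernel

theorem top_sum : ∑ v ∈ verts cells, top v = 3 := by
  decide +kernel

/-- double counting over a perfect matching -/
theorem double {S : Finset (ℤ × ℤ)} {M : Finset (Sym2 V)} (hM : M ∈ kekule S) (a : V → ℤ) :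
    ∑ e ∈ M, ∑ v ∈ (verts S).filter (fun v => v ∈ e), a v = ∑ v ∈ verts S, a v := by
  unfold kekule at hM
  rw [Finset.mem_filter] at hM
  simp_rw [Finset.sum_filter]
  rw [Finset.sum_comm]
  refine Finset.sum_congr rfl fun v hv => ?_
  rw [← Finset.sum_filter, Finset.sum_const, hM.2 v hv, one_smul]

theorem three {M : Finset (Sym2 V)} (hM : M ∈ kekule cells) :
    (M.filter fun e => e ∈ hexEdges (0, 0)).card = 3 := by
  have hsub : M ⊆ edges cells := by
    have h := hM
    unfold kekule at h
    rw [Finset.mem_filter, Finset.mem_powerset] at h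
    exact h.1
  have hc : ((M.filter fun e => e ∈ hexEdges (0, 0)).card : ℤ) =
      ∑ e ∈ M, if e ∈ hexEdges (0, 0) then 1 else 0 := by
    rw [Finset.sum_boole]
  have h1 : (3 : ℤ) ≤ ∑ e ∈ M, if e ∈ hexEdges (0, 0) then 1 else 0 := by
    rw [← wt_sum, ← double hM wt]
    exact Finset.sum_le_sum fun e he => wt_edge e (hsub he)
  have h2 : ∑ e ∈ M, (if e ∈ hexEdges (0, 0) then 1 else 0) ≤ (3 : ℤ) := by
    rw [← top_sum, ← double hM top]
    exact Finset.sum_le_sum fun e he => top_edge e (hsub he)
  have h3 : ((M.filter fun e => e ∈ hexEdges (0, 0)).card : ℤ) = 3 := by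
    rw [hc]
    exact le_antisymm h2 h1
  exact_mod_cast h3

theorem rbo_three : RBO cells (0, 0) = 3 := by
  have hK : ((kekule cells).card : ℚ) ≠ 0 := by
    have : 0 < (kekule cells).card := Finset.card_pos.2 ⟨pm, pm_ok⟩
    exact_mod_cast this.ne'
  unfold RBO bondOrder
  rw [← Finset.sum_div, div_eq_iff hK]
  have h1 : ∀ e : Sym2 V, (((kekule cells).filter fun M => e ∈ M).card : ℚ) =
      ∑ M ∈ kekule cells, if e ∈ M then (1 : ℚ) else 0 := by
    intro e
    rw [Finset.sum_boole]
  simp_rw [h1]
  rw [Finset.sum_comm]
  have h2 : ∀ M ∈ kekule cells, ∑ e ∈ hexEdges (0, 0), (if e ∈ M then (1 : ℚ) else 0) = 3 := by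
    intro M hM
    rw [Finset.sum_boole]
    have h3 := three hM
    have h4 : (hexEdges (0, 0)).filter (fun e => e ∈ M) =
        M.filter fun e => e ∈ hexEdges (0, 0) := by
      ext e
      rw [Finset.mem_filter, Finset.mem_filter, and_comm]
    rw [h4, h3]
    norm_num
  rw [Finset.sum_congr rfl h2, Finset.sum_const, nsmul_eq_mul, mul_comm]

/-- There is a benzenoid system with nine hexagons, an induced subgraph of the hexagonal lattice,
that has a Kekulé structure and a hexagon with ring bond order 3; this hexagon contains exactly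
three edges of every Kekulé structure. -/
theorem result : ∃ (C : List V) (S : Finset (ℤ × ℤ)), IsBenzenoid C S ∧ S.card = 9 ∧
    1 ≤ (kekule S).card ∧
    (∀ u ∈ verts S, ∀ v ∈ verts S, lattice.Adj u v → s(u, v) ∈ edges S) ∧
    ∃ h ∈ S, RBO S h = 3 ∧
      ∀ M ∈ kekule S, (M.filter fun e => e ∈ hexEdges h).card = 3 :=
  ⟨bdry, cells, benz, by decide, Finset.card_pos.2 ⟨pm, pm_ok⟩, induced_ok, (0, 0), by decide,
    rbo_three, fun _ hM => three hM⟩

end Pool.Agent.Results.MP_64a46a_co.OrderThree
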